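import Mathlib

/-!
# Project QM (helper874), part SPL (helper891): primes modulo which a polynomial splits

After `Pool/Agent/N2/PM/Spl.lean` (helper2).
-/

set_option autoImplicit false

open Polynomial
open scoped IntermediateField

namespace Pool.Agent.N891.QM

/-- the polynomial `P` splits modulo the primes at which the generator has a zero -/
theorem claim1 {N : Type} [Field N] [Algebra ℚ N] [FiniteDimensional ℚ N] (γ : N) (g : ℤ[X])
    (hg : g.Monic) (hroot : eval₂ (Int.castRingHom N) γ g = 0)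
    (hmin : g.map (Int.castRingHom ℚ) = minpoly ℚ γ) (htop : ℚ⟮γ⟯ = ⊤) (P : ℤ[X]) (hP : P.Monic)
    (hsplit : (P.map (Int.castRingHom N)).Splits) :
    ∃ Δ : ℤ, Δ ≠ 0 ∧ ∀ (q : ℕ) [Fact q.Prime], ¬ (q : ℤ) ∣ Δ → ∀ c : ℤ, (q : ℤ) ∣ g.eval c →
      (P.map (Int.castRingHom (ZMod q))).Splits := by
  have hRK : Function.Injective (Int.castRingHom ℚ) := RingHom.injective_int _
  have hint : IsIntegral ℚ γ := Algebra.IsIntegral.isIntegral γ
  have hcc : (algebraMap ℚ N).comp (Int.castRingHom ℚ) = Int.castRingHom N := RingHom.ext_int _ _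
  have haev : ∀ p : ℤ[X], aeval γ (p.map (Int.castRingHom ℚ)) = eval₂ (Int.castRingHom N) γ p := by
    intro p
    rw [aeval_def, eval₂_map, hcc]
  obtain ⟨ι, hι⟩ : ∃ ι : AdjoinRoot g →+* N, ι = AdjoinRoot.lift (Int.castRingHom N) γ hroot :=
    ⟨_, rfl⟩
  have hιinj : Function.Injective ι := by
    rw [injective_iff_map_eq_zero]
    intro a ha
    obtain ⟨p, rfl⟩ := AdjoinRoot.mk_surjective a
    rw [hι, AdjoinRoot.lift_mk] at ha
    rw [AdjoinRoot.mk_eq_zero, ← Polynomial.map_dvd_map _ hRK hg, hmin]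
    apply minpoly.dvd
    rw [haev]
    exact ha
  have hden : ∀ m : N, ∃ (Δ : ℤ) (a : AdjoinRoot g), Δ ≠ 0 ∧ ι a = (Δ : N) * m := by
    intro m
    have h1 : m ∈ ℚ⟮γ⟯.toSubalgebra := by
      rw [htop]; exact Algebra.mem_top
    rw [IntermediateField.adjoin_simple_toSubalgebra_of_isAlgebraic hint.isAlgebraic,
      Algebra.adjoin_singleton_eq_range_aeval] at h1
    obtain ⟨p, hp⟩ := h1
    obtain ⟨b, hb, hb2⟩ := IsLocalization.integerNormalization_spec (nonZeroDivisors ℤ) p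
    refine ⟨b, AdjoinRoot.mk g (IsLocalization.integerNormalization (nonZeroDivisors ℤ) p),
      nonZeroDivisors.ne_zero hb, ?_⟩
    rw [hι, AdjoinRoot.lift_mk, ← haev]
    have h3 : (IsLocalization.integerNormalization (nonZeroDivisors ℤ) p).map
        (Int.castRingHom ℚ) = C (b : ℚ) * p := by
      have h4 : (IsLocalization.integerNormalization (nonZeroDivisors ℤ) p).map
        (algebraMap ℤ ℚ) = b • p := hb2
      rw [algebraMap_int_eq] at h4
      rw [h4]
      ext i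
      rw [coeff_smul, coeff_C_mul, zsmul_eq_mul]
    rw [h3, map_mul, aeval_C, ← hp]
    congr 1
    rw [eq_ratCast]
    simp
  choose Δ a hΔ ha using hden
  obtain ⟨rts, hrts⟩ : ∃ rts : Multiset N, rts = (P.map (Int.castRingHom N)).roots := ⟨_, rfl⟩
  have hsp : P.map (Int.castRingHom N) = (rts.map fun m => X - C m).prod := by
    rw [hrts]
    exact hsplit.eq_prod_roots_of_monic (hP.map _)
  have key : C ((rts.map fun m => AdjoinRoot.of g (Δ m)).prod) * P.map (AdjoinRoot.of g) =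
      (rts.map fun m => C (AdjoinRoot.of g (Δ m)) * X - C (a m)).prod := by
    apply Polynomial.map_injective ι hιinj
    have hcomp : ι.comp (AdjoinRoot.of g) = Int.castRingHom N := RingHom.ext_int _ _
    rw [Polynomial.map_mul, Polynomial.map_map, hcomp, hsp, map_C, Polynomial.map_multiset_prod,
      Multiset.map_map, map_multiset_prod, Multiset.map_map, map_multiset_prod C, Multiset.map_map,
      ← Multiset.prod_map_mul]
    congr 1
    refine Multiset.map_congr rfl fun m _ => ?_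
    have hofm : ι (AdjoinRoot.of g (Δ m)) = (Δ m : N) := by
      have : (ι.comp (AdjoinRoot.of g)) (Δ m) = (Int.castRingHom N) (Δ m) := by rw [hcomp]
      exact this
    simp only [Function.comp_apply, Polynomial.map_sub, Polynomial.map_mul, map_X, map_C, ha, hofm,
      C_mul]
    ring
  refine ⟨(rts.map Δ).prod, ?_, ?_⟩
  · rw [Ne, Multiset.prod_eq_zero_iff]
    intro h0
    obtain ⟨m, _, hm⟩ := Multiset.mem_map.1 h0
    exact hΔ m hm
  · intro q hq hqΔ c hc
    have hqc : eval₂ (Int.castRingHom (ZMod q)) (c : ZMod q) g = 0 := by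
      have h1 := eval₂_at_intCast (Int.castRingHom (ZMod q)) (p := g) c
      rw [h1, eq_intCast]
      exact (ZMod.intCast_zmod_eq_zero_iff_dvd _ _).2 hc
    obtain ⟨φ, hφ⟩ : ∃ φ : AdjoinRoot g →+* ZMod q, φ = AdjoinRoot.lift (Int.castRingHom (ZMod q))
      (c : ZMod q) hqc := ⟨_, rfl⟩
    have hcomp : φ.comp (AdjoinRoot.of g) = Int.castRingHom (ZMod q) := RingHom.ext_int _ _
    have h1 := congrArg (Polynomial.map φ) key
    rw [Polynomial.map_mul, Polynomial.map_map, hcomp, map_C, Polynomial.map_multiset_prod,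
      Multiset.map_map] at h1
    have h2 : ((rts.map ((Polynomial.map φ) ∘ fun m => C (AdjoinRoot.of g (Δ m)) * X - C (a m))).prod).Splits := by
      apply Splits.multisetProd
      intro f hf
      obtain ⟨m, _, rfl⟩ := Multiset.mem_map.1 hf
      apply Splits.of_natDegree_le_one
      simp only [Function.comp_apply, Polynomial.map_sub, Polynomial.map_mul, map_X, map_C]
      refine (natDegree_sub_le _ _).trans ?_
      rw [natDegree_C, max_eq_left (Nat.zero_le _)]
      exact (natDegree_C_mul_le _ _).trans natDegree_X_le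
    rw [← h1] at h2
    refine (splits_mul_iff_right ?_ (Splits.C _)).1 h2
    rw [Ne, C_eq_zero, map_multiset_prod, Multiset.map_map]
    have h3 : (φ ∘ fun m => AdjoinRoot.of g (Δ m)) = (Int.castRingHom (ZMod q)) ∘ Δ := by
      funext m
      rw [← hcomp]; rfl
    rw [h3, ← Multiset.map_map, ← map_multiset_prod]
    intro h0
    rw [eq_intCast] at h0
    exact hqΔ ((ZMod.intCast_zmod_eq_zero_iff_dvd _ _).1 h0)

/-- infinitely many primes divide some value -/
theorem claim2 (g : ℤ[X]) (hg : g.Monic) (hd : g.natDegree ≠ 0) (P₀ : ℤ) (hPi : P₀ ≠ 0) :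
    ∃ (q : ℕ) (c : ℤ), q.Prime ∧ ¬ (q : ℤ) ∣ P₀ ∧ (q : ℤ) ∣ g.eval c := by
  classical
  have hg0 : g ≠ 0 := hg.ne_zero
  obtain ⟨c₀, hc₀⟩ : ∃ c, g.eval c ≠ 0 := by
    by_contra! h
    exact hg0 (Polynomial.funext fun c => by rw [h c, eval_zero])
  obtain ⟨G, hGdef⟩ : ∃ G : ℤ[X], G = g.comp (C c₀ + C (g.eval c₀ * P₀) * X) := ⟨_, rfl⟩
  have hlin : (C c₀ + C (g.eval c₀ * P₀) * X : ℤ[X]).natDegree = 1 := by
    rw [add_comm]
    exact natDegree_linear (mul_ne_zero hc₀ hPi)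
  have hGd : G.natDegree ≠ 0 := by
    rw [hGdef, natDegree_comp, hlin, mul_one]
    exact hd
  have hne : (∏ e ∈ ({0, 1, -1} : Finset ℤ), (G - C (e * g.eval c₀))) ≠ 0 := by
    rw [Finset.prod_ne_zero_iff]
    intro e _ h0
    rw [sub_eq_zero] at h0
    rw [h0, natDegree_C] at hGd
    exact hGd rfl
  obtain ⟨t, ht⟩ : ∃ t, (∏ e ∈ ({0, 1, -1} : Finset ℤ), (G - C (e * g.eval c₀))).eval t ≠ 0 := by
    by_contra! h
    exact hne (Polynomial.funext fun c => by rw [h c, eval_zero])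
  rw [eval_prod, Finset.prod_ne_zero_iff] at ht
  have hGt : G.eval t = g.eval (c₀ + g.eval c₀ * P₀ * t) := by
    rw [hGdef, eval_comp]; simp
  obtain ⟨v, hv⟩ := sub_dvd_eval_sub (c₀ + g.eval c₀ * P₀ * t) c₀ g
  have hfac : G.eval t = g.eval c₀ * (1 + P₀ * (t * v)) := by
    rw [hGt]
    linear_combination hv
  obtain ⟨w, hw⟩ : ∃ w : ℤ, w = 1 + P₀ * (t * v) := ⟨_, rfl⟩
  have hw2 : ∀ e ∈ ({0, 1, -1} : Finset ℤ), w ≠ e := by
    intro e he0 he
    apply ht e he0
    rw [eval_sub, eval_C, hfac, ← hw, he]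
    ring
  have hw1 : w.natAbs ≠ 1 := by
    intro h
    rcases Int.natAbs_eq_iff.1 h with h | h
    · exact hw2 1 (by simp) (by exact_mod_cast h)
    · exact hw2 (-1) (by simp) (by exact_mod_cast h)
  obtain ⟨q, hq, hqw⟩ := Nat.exists_prime_and_dvd hw1
  have hqw' : (q : ℤ) ∣ w := Int.natCast_dvd.2 hqw
  refine ⟨q, c₀ + g.eval c₀ * P₀ * t, hq, ?_, ?_⟩
  · intro hqP
    have h2 : (1 : ℤ) = w - P₀ * (t * v) := by rw [hw]; ring
    have h1 : (q : ℤ) ∣ 1 := by
      rw [h2]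
      exact dvd_sub hqw' (hqP.mul_right _)
    have h3 : q ∣ 1 := by exact_mod_cast h1
    exact hq.one_lt.ne' (Nat.dvd_one.1 h3)
  · rw [← hGt, hfac, ← hw]
    exact hqw'.mul_left _

/-- an integral primitive element -/
theorem exists_gen (N : Type) [Field N] [Algebra ℚ N] [FiniteDimensional ℚ N] :
    ∃ (γ : N) (g : ℤ[X]), g.Monic ∧ g.natDegree ≠ 0 ∧ eval₂ (Int.castRingHom N) γ g = 0 ∧
      g.map (Int.castRingHom ℚ) = minpoly ℚ γ ∧ ℚ⟮γ⟯ = ⊤ := by
  obtain ⟨α, hα⟩ := Field.exists_primitive_element ℚ N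
  have halg : IsAlgebraic ℤ α := by
    have h1 : IsAlgebraic ℚ α := Algebra.IsAlgebraic.isAlgebraic α
    exact (IsFractionRing.isAlgebraic_iff ℤ ℚ N).2 h1
  obtain ⟨y, hy0, hy⟩ := halg.exists_integral_multiple
  have hyi : IsIntegral ℤ (y • α) := hy
  have hyq : (y : ℚ) ≠ 0 := by exact_mod_cast hy0
  have hyα : y • α = (y : ℚ) • α := by
    rw [zsmul_eq_mul, Algebra.smul_def]
    congr 1
    simp
  refine ⟨y • α, minpoly ℤ (y • α), minpoly.monic hyi, (minpoly.natDegree_pos hyi).ne', ?_, ?_, ?_⟩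
  · have h1 := minpoly.aeval ℤ (y • α)
    rw [aeval_def] at h1
    exact h1
  · exact (minpoly.isIntegrallyClosed_eq_field_fractions' ℚ hyi).symm
  · rw [eq_top_iff, ← hα, IntermediateField.adjoin_simple_le_iff, hyα]
    have h1 : (y : ℚ) • α ∈ ℚ⟮(y : ℚ) • α⟯ := IntermediateField.mem_adjoin_simple_self _ _
    have h2 := ℚ⟮(y : ℚ) • α⟯.smul_mem h1 (x := (y : ℚ)⁻¹)
    rwa [smul_smul, inv_mul_cancel₀ hyq, one_smul] at h2

/-- infinitely many primes which are `1` modulo `8` and modulo which `m` splits -/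
theorem infinite_split (m : ℤ[X]) (hm : m.Monic) :
    {q : ℕ | q.Prime ∧ q % 8 = 1 ∧ (m.map (Int.castRingHom (ZMod q))).Splits}.Infinite := by
  classical
  have h8 : (X ^ 4 + 1 : ℤ[X]).Monic := by
    have := monic_X_pow_add_C (1 : ℤ) (n := 4) (by norm_num)
    simpa using this
  obtain ⟨f, hf⟩ : ∃ f : ℚ[X], f = (m * (X ^ 4 + 1)).map (Int.castRingHom ℚ) := ⟨_, rfl⟩
  have hf0 : f ≠ 0 := by
    rw [hf]
    exact ((hm.mul h8).map _).ne_zero
  obtain ⟨γ, g, hg, hgd, hroot, hmin, htop⟩ := exists_gen f.SplittingField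
  have hs : ((m * (X ^ 4 + 1)).map (Int.castRingHom f.SplittingField)).Splits := by
    have h1 := SplittingField.splits f
    have h2 : f.map (algebraMap ℚ f.SplittingField) =
        (m * (X ^ 4 + 1)).map (Int.castRingHom f.SplittingField) := by
      have h3 : ∀ (F : Type) [Field F] (i : ℚ →+* F), f.map i =
          (m * (X ^ 4 + 1)).map (Int.castRingHom F) := by
        intro F _ i
        rw [hf, Polynomial.map_map]
        congr 1
        exact RingHom.ext_int _ _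
      exact h3 _ _
    rw [← h2]
    exact h1
  rw [Polynomial.map_mul] at hs
  obtain ⟨hs1, hs2⟩ := (splits_mul (hm.map _).ne_zero (h8.map _).ne_zero).1 hs
  obtain ⟨Δ₁, hΔ₁, H₁⟩ := claim1 γ g hg hroot hmin htop m hm hs1
  obtain ⟨Δ₂, hΔ₂, H₂⟩ := claim1 γ g hg hroot hmin htop _ h8 hs2
  intro hfin
  obtain ⟨P₀, hP₀⟩ : ∃ P₀ : ℤ, P₀ = Δ₁ * Δ₂ * 2 * ∏ q ∈ hfin.toFinset, (q : ℤ) := ⟨_, rfl⟩
  have hP0 : P₀ ≠ 0 := by
    rw [hP₀]
    refine mul_ne_zero (mul_ne_zero (mul_ne_zero hΔ₁ hΔ₂) two_ne_zero)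
      (Finset.prod_ne_zero_iff.2 fun q hq => ?_)
    have := (hfin.mem_toFinset.1 hq).1.ne_zero
    exact_mod_cast this
  obtain ⟨q, c, hq, hqP, hqc⟩ := claim2 g hg hgd P₀ hP0
  have : Fact q.Prime := ⟨hq⟩
  have e1 : ¬ (q : ℤ) ∣ Δ₁ := fun h => hqP (by
    rw [hP₀]
    exact (((h.mul_right _).mul_right _).mul_right _))
  have e2 : ¬ (q : ℤ) ∣ Δ₂ := fun h => hqP (by
    rw [hP₀]
    exact (((h.mul_left _).mul_right _).mul_right _))
  have e3 : ¬ (q : ℤ) ∣ 2 := fun h => hqP (by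
    rw [hP₀]
    exact ((h.mul_left _).mul_right _))
  have f1 := H₁ q e1 c hqc
  have f2 := H₂ q e2 c hqc
  -- `q = 1 mod 8`
  have hq8 : q % 8 = 1 := by
    have hdeg : ((X ^ 4 + 1 : ℤ[X]).map (Int.castRingHom (ZMod q))).degree ≠ 0 := by
      have h1 : (X ^ 4 + 1 : ℤ[X]).map (Int.castRingHom (ZMod q)) = X ^ 4 + C 1 := by simp
      rw [h1, degree_X_pow_add_C (by norm_num)]
      norm_num
    obtain ⟨x, hx⟩ := f2.exists_eval_eq_zero hdeg
    have hx4 : x ^ 4 = -1 := by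
      have h1 : x ^ 4 + 1 = 0 := by simpa using hx
      exact eq_neg_of_add_eq_zero_left h1
    have h21 : (-1 : ZMod q) ≠ 1 := by
      intro h
      apply e3
      rw [← ZMod.intCast_zmod_eq_zero_iff_dvd]
      push_cast
      have : (2 : ZMod q) = 1 - (-1) := by ring
      rw [this, h, sub_self]
    have ho : orderOf x = 2 ^ (2 + 1) := by
      refine orderOf_eq_prime_pow ?_ ?_
      · norm_num
        rw [hx4]
        exact h21
      · have : x ^ 2 ^ (2 + 1) = (x ^ 4) ^ 2 := by ring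
        rw [this, hx4]
        ring
    have hx0 : x ≠ 0 := by
      rintro rfl
      rw [zero_pow (by norm_num)] at hx4
      exact one_ne_zero (neg_eq_zero.1 hx4.symm)
    have h3 := ZMod.orderOf_dvd_card_sub_one hx0
    rw [ho] at h3
    have h4 := hq.one_lt
    norm_num at h3
    omega
  apply hqP
  rw [hP₀]
  refine Dvd.dvd.mul_left ?_ _
  exact Finset.dvd_prod_of_mem (fun q : ℕ => (q : ℤ)) (hfin.mem_toFinset.2 ⟨hq, hq8, f1⟩)

end Pool.Agent.N891.QM
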