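import Pool.Agent.N874.QM.Stm
import Pool.Agent.N891.QM.SplA

/-!
# Project QM (helper874), part SPL (helper891): primes `q = 1` mod `8` modulo which `m` splits

After `Pool/Agent/N2/PM/Spl.lean` (helper2).
-/

set_option autoImplicit false

open Polynomial
open Pool.Agent.N874.QM
open scoped IntermediateField

namespace Pool.Agent.N891.QM

theorem splitMod_of_splits (q : ℕ) [Fact q.Prime] (g : ℤ[X]) (hg : g.Monic)
    (hs : (g.map (Int.castRingHom (ZMod q))).Splits) : SplitMod q g := by
  have h1 := hs.eq_prod_roots_of_monic (hg.map _)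
  have hsurj : Function.Surjective (Int.castRingHom (ZMod q)) := ZMod.ringHom_surjective _
  refine ⟨((g.map (Int.castRingHom (ZMod q))).roots).map (Function.surjInv hsurj), ?_⟩
  have h2 : (((((g.map (Int.castRingHom (ZMod q))).roots).map
      (Function.surjInv hsurj)).map fun c => X - C c).prod).map
        (Int.castRingHom (ZMod q)) = g.map (Int.castRingHom (ZMod q)) := by
    conv_rhs => rw [h1]
    rw [Polynomial.map_multiset_prod, Multiset.map_map, Multiset.map_map]
    congr 1
    refine Multiset.map_congr rfl fun x _ => ?_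
    simp only [Function.comp_apply, Polynomial.map_sub, map_X, map_C]
    rw [Function.surjInv_eq hsurj x]
  have h3 : C (q : ℤ) ∣ g - ((((g.map (Int.castRingHom (ZMod q))).roots).map
      (Function.surjInv hsurj)).map fun c => X - C c).prod := by
    rw [C_dvd_iff_dvd_coeff]
    intro i
    rw [← ZMod.intCast_zmod_eq_zero_iff_dvd, coeff_sub, Int.cast_sub]
    have h4 : (((((g.map (Int.castRingHom (ZMod q))).roots).map
      (Function.surjInv hsurj)).map fun c => X - C c).prod.map (Int.castRingHom (ZMod q))).coeff i =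
        (g.map (Int.castRingHom (ZMod q))).coeff i := by rw [h2]
    rw [coeff_map, coeff_map] at h4
    exact sub_eq_zero.2 h4.symm
  obtain ⟨h, hh⟩ := h3
  exact ⟨h, by rw [← hh]; ring⟩

theorem spl : S_SPL := by
  intro M _ _ _ γ m δ hG _ W r
  obtain ⟨S, hS1, hS2⟩ := ((infinite_split m hG.monic).sdiff (Set.finite_Iic W)).exists_subset_card_eq r
  refine ⟨S, hS2, fun q hq => ?_⟩
  obtain ⟨⟨h1, h2, h3⟩, h4⟩ := hS1 hq
  have : Fact q.Prime := ⟨h1⟩
  refine ⟨h1, ?_, h2, splitMod_of_splits q m hG.monic h3⟩
  rw [Set.mem_Iic] at h4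
  omega

end Pool.Agent.N891.QM
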